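import Mathlib
import Pool.Agent.Helper948.Core

set_option autoImplicit false

open MeasureTheory ProbabilityTheory Filter Topology
open Pool.Agent.Helper948.Core
open scoped Pointwise

namespace Pool.Agent.Results.MP_2e2eba_pr

/-- Configurations on the lattice of integer points of dimension `d`; `true` is 1, `false` is 0. -/
abbrev Config (d : ℕ) : Type := (Fin d → ℤ) → Bool

/-- The product measure on configurations under which every site is 1 with probability `p`. -/
noncomputable def bernoulliField (d : ℕ) (p : unitInterval) : ProbabilityMeasure (Config d) :=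
  ⟨Measure.infinitePi (fun _ : Fin d → ℤ => bernoulliMeasure true false p), inferInstance⟩

/-- The updated configuration: at the site `s` it is 1 if the noise `η` is 1 at `s`, and otherwise
it is the minimum of the bits `x (s + v 1), ..., x (s + v n)`, i.e. it is 1 exactly when all of
them are 1. -/
def update {d n : ℕ} (v : Fin n → (Fin d → ℤ)) (x η : Config d) : Config d := fun s =>
  if η s = true then true else decide (∀ i, x (s + v i) = true)

theorem update_eq_true {d n : ℕ} (v : Fin n → (Fin d → ℤ)) (x η : Config d) (s : Fin d → ℤ) :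
    update v x η s = true ↔ (η s = true ∨ ∀ i, x (s + v i) = true) := by
  unfold update
  by_cases h : η s = true
  · simp [h]
  · rw [if_neg h, decide_eq_true_iff]; simp [h]

theorem measurableSet_true {d : ℕ} (s : Fin d → ℤ) : MeasurableSet {x : Config d | x s = true} :=
  measurableSet_eq_fun (measurable_pi_apply s) measurable_const

theorem measurable_update {d n : ℕ} (v : Fin n → (Fin d → ℤ)) :
    Measurable (fun p : Config d × Config d => update v p.1 p.2) := by
  rw [measurable_pi_iff]
  intro s
  apply measurable_to_bool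
  have h1 : (fun p : Config d × Config d => update v p.1 p.2 s) ⁻¹' {true} =
      {p : Config d × Config d | p.2 s = true} ∪ ⋂ i, {p : Config d × Config d | p.1 (s + v i) = true} := by
    ext p
    simp only [Set.mem_preimage, Set.mem_singleton_iff, update_eq_true, Set.mem_union,
      Set.mem_ofPred_eq, Set.mem_iInter]
  rw [h1]
  apply MeasurableSet.union
  · exact measurable_snd (measurableSet_true s)
  · exact MeasurableSet.iInter (fun i => measurable_fst (measurableSet_true (s + v i)))

/-- The percolation operator: the law of the updated configuration, when `x` has law `μ` and the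
noise is an independent Bernoulli field of parameter `θ`. -/
noncomputable def perc {d n : ℕ} (v : Fin n → (Fin d → ℤ)) (θ : unitInterval)
    (μ : ProbabilityMeasure (Config d)) : ProbabilityMeasure (Config d) :=
  (μ.prod (bernoulliField d θ)).map (f := fun p => update v p.1 p.2)
    (measurable_update v).aemeasurable

/-- The point mass on the configuration all zeroes. -/
noncomputable def zeroes (d : ℕ) : ProbabilityMeasure (Config d) := diracProba (fun _ => false)

/-- The point mass on the configuration all ones. -/
noncomputable def ones (d : ℕ) : ProbabilityMeasure (Config d) := diracProba (fun _ => true)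

/-- The critical value of the percolation operator. -/
noncomputable def critical {d n : ℕ} (v : Fin n → (Fin d → ℤ)) : ℝ :=
  sInf {θ : ℝ | ∃ h : θ ∈ Set.Icc (0 : ℝ) 1,
    Tendsto (fun t : ℕ => (perc v ⟨θ, h⟩)^[t] (zeroes d)) atTop (𝓝 (ones d))}

/-- The operator chaos: the product measure with the same one-site marginals. -/
noncomputable def chaos {d : ℕ} (μ : ProbabilityMeasure (Config d)) :
    ProbabilityMeasure (Config d) :=
  ⟨Measure.infinitePi (fun s : Fin d → ℤ =>
    ((μ.map (measurable_pi_apply s).aemeasurable : ProbabilityMeasure Bool) : Measure Bool)),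
    inferInstance⟩

/-- The density of ones (at the origin) of the `k`-th iterate of `chaos ∘ P(θ)^T` from `δ₀`. -/
noncomputable def chaosDensity {d n : ℕ} (v : Fin n → (Fin d → ℤ)) (θ : unitInterval) (T k : ℕ) :
    ℝ :=
  (((fun μ => chaos ((perc v θ)^[T] μ))^[k] (zeroes d) : ProbabilityMeasure (Config d)) :
    Measure (Config d)).real {x | x 0 = true}

/-- The critical point of the chaos approximation of order `T`. -/
noncomputable def chaosCritical {d n : ℕ} (v : Fin n → (Fin d → ℤ)) (T : ℕ) : ℝ :=
  sInf {θ : ℝ | ∃ h : θ ∈ Set.Icc (0 : ℝ) 1,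
    Tendsto (fun k : ℕ => chaosDensity v ⟨θ, h⟩ T k) atTop (𝓝 1)}

/-- The probability that all sites of `A` are 1. -/
noncomputable def allOnes {d : ℕ} (μ : ProbabilityMeasure (Config d)) (A : Finset (Fin d → ℤ)) :
    ℝ := (μ : Measure (Config d)).real {x | ∀ s ∈ A, x s = true}

theorem measurableSet_allOnes {d : ℕ} (A : Finset (Fin d → ℤ)) :
    MeasurableSet {x : Config d | ∀ s ∈ A, x s = true} := by
  have : {x : Config d | ∀ s ∈ A, x s = true} = ⋂ s ∈ A, {x : Config d | x s = true} := by
    ext x; simp
  rw [this]
  exact Finset.measurableSet_biInter A (fun s _ => measurableSet_true s)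

theorem allOnes_perc {d n : ℕ} (v : Fin n → (Fin d → ℤ)) (θ : unitInterval)
    (μ : ProbabilityMeasure (Config d)) :
    allOnes (perc v θ μ) = Q (1 - (θ : ℝ)) (Finset.univ.image v) (allOnes μ) := by
  classical
  funext A
  set V := Finset.univ.image v with hV
  set q : ℝ := 1 - (θ : ℝ) with hq
  -- the noise pattern
  let E : Finset (Fin d → ℤ) → Set (Config d) := fun R =>
    (A : Set (Fin d → ℤ)).pi (fun s => if s ∈ R then {false} else {true})
  have hE : ∀ R ⊆ A, ((bernoulliField d θ : ProbabilityMeasure (Config d)) :
      Measure (Config d)).real (E R) = wt q A.card R.card := by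
    intro R hR
    have h1 : ((bernoulliField d θ : ProbabilityMeasure (Config d)) : Measure (Config d)) (E R) =
        ∏ s ∈ A, bernoulliMeasure true false θ (if s ∈ R then {false} else {true}) := by
      show Measure.infinitePi _ _ = _
      apply Measure.infinitePi_pi
      intro s _
      exact MeasurableSet.of_discrete
    rw [measureReal_def, h1, ENNReal.toReal_prod]
    have h2 : ∀ s ∈ A, (bernoulliMeasure true false θ
        (if s ∈ R then ({false} : Set Bool) else {true})).toReal = if s ∈ R then q else 1 - q := by
      intro s _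
      rw [← measureReal_def]
      by_cases hs : s ∈ R
      · rw [if_pos hs, if_pos hs, bernoulliMeasure_real_apply θ MeasurableSet.of_discrete]
        simp [hq]
      · rw [if_neg hs, if_neg hs, bernoulliMeasure_real_apply θ MeasurableSet.of_discrete]
        simp [hq]
    rw [Finset.prod_congr rfl h2, Finset.prod_ite, Finset.prod_const, Finset.prod_const]
    have h3 : (A.filter (fun s => s ∈ R)).card = R.card := by
      rw [Finset.filter_mem_eq_inter, Finset.inter_eq_right.2 hR]
    have h4 : (A.filter (fun s => ¬ s ∈ R)).card = A.card - R.card := by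
      rw [Finset.filter_notMem_eq_sdiff, Finset.card_sdiff_of_subset hR]
    rw [h3, h4]
    rfl
  have hset : (fun p : Config d × Config d => update v p.1 p.2) ⁻¹' {x | ∀ s ∈ A, x s = true} =
      ⋃ R ∈ A.powerset, {x : Config d | ∀ s ∈ R + V, x s = true} ×ˢ E R := by
    ext ⟨x, η⟩
    simp only [Set.mem_preimage, Set.mem_ofPred_eq, update_eq_true, Set.mem_iUnion,
      Finset.mem_powerset, Set.mem_prod, exists_prop]
    constructor
    · intro h
      refine ⟨A.filter (fun s => η s = false), Finset.filter_subset _ _, ?_, ?_⟩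
      · intro s hs
        obtain ⟨r, hr, w, hw, rfl⟩ := Finset.mem_add.1 hs
        rw [Finset.mem_filter] at hr
        obtain ⟨i, _, rfl⟩ := Finset.mem_image.1 hw
        rcases h r hr.1 with h1 | h1
        · rw [hr.2] at h1; exact absurd h1 (by simp)
        · exact h1 i
      · intro s hs
        simp only [Finset.mem_filter]
        cases hη : η s with
        | false => rw [if_pos ⟨hs, rfl⟩]; rfl
        | true => rw [if_neg (by simp)]; rfl
    · rintro ⟨R, hR, h1, h2⟩ s hs
      have h3 := h2 s hs
      by_cases hsR : s ∈ R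
      · right
        intro i
        exact h1 _ (Finset.add_mem_add hsR (Finset.mem_image_of_mem v (Finset.mem_univ i)))
      · left
        simpa [hsR] using h3
  have hEm : ∀ R, MeasurableSet (E R) := by
    intro R
    apply MeasurableSet.pi (Finset.countable_toSet A)
    intro s _
    exact MeasurableSet.of_discrete
  have hdisj : (A.powerset : Set (Finset (Fin d → ℤ))).PairwiseDisjoint
      (fun R => {x : Config d | ∀ s ∈ R + V, x s = true} ×ˢ E R) := by
    intro R hR S hS hRS
    rw [Function.onFun, Set.disjoint_left]
    rintro ⟨x, η⟩ ⟨_, h1⟩ ⟨_, h2⟩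
    apply hRS
    simp only [Finset.coe_powerset, Set.mem_preimage, Set.mem_powerset_iff, Finset.coe_subset]
      at hR hS
    ext s
    constructor
    · intro hs
      have h3 := h1 s (hR hs)
      have h4 := h2 s (hR hs)
      by_contra hcon
      simp only [hs, if_true, Set.mem_singleton_iff] at h3
      simp only [hcon, if_false, Set.mem_singleton_iff] at h4
      rw [h3] at h4
      exact absurd h4 (by simp)
    · intro hs
      have h3 := h1 s (hS hs)
      have h4 := h2 s (hS hs)
      by_contra hcon
      simp only [hs, if_true, Set.mem_singleton_iff] at h4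
      simp only [hcon, if_false, Set.mem_singleton_iff] at h3
      rw [h3] at h4
      exact absurd h4 (by simp)
  have hlhs : allOnes (perc v θ μ) A =
      ((μ : Measure (Config d)).prod ((bernoulliField d θ : ProbabilityMeasure (Config d)) :
        Measure (Config d))).real
        (⋃ R ∈ A.powerset, {x : Config d | ∀ s ∈ R + V, x s = true} ×ˢ E R) := by
    unfold allOnes perc
    rw [← hset, ProbabilityMeasure.toMeasure_map, ProbabilityMeasure.toMeasure_prod,
      map_measureReal_apply (measurable_update v) (measurableSet_allOnes A)]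
  rw [hlhs, measureReal_biUnion_finset hdisj
    (fun R _ => (measurableSet_allOnes (R + V)).prod (hEm R))]
  unfold Q wsum
  apply Finset.sum_congr rfl
  intro R hR
  rw [measureReal_prod_prod, hE R (Finset.mem_powerset.1 hR)]
  unfold allOnes
  ring

theorem allOnes_iter {d n : ℕ} (v : Fin n → (Fin d → ℤ)) (θ : unitInterval) (t : ℕ) :
    ∀ (μ : ProbabilityMeasure (Config d)), allOnes ((perc v θ)^[t] μ) =
      (Q (1 - (θ : ℝ)) (Finset.univ.image v))^[t] (allOnes μ) := by
  induction t with
  | zero => intro μ; rfl
  | succ t ih =>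
    intro μ
    rw [Function.iterate_succ_apply', Function.iterate_succ_apply', allOnes_perc, ih]

theorem allOnes_zeroes (d : ℕ) (A : Finset (Fin d → ℤ)) :
    allOnes (zeroes d) A = if A = ∅ then 1 else 0 := by
  unfold allOnes zeroes
  rw [measureReal_def, diracProba_toMeasure_apply' _ (measurableSet_allOnes A)]
  by_cases hA : A = ∅
  · subst hA
    simp
  · rw [if_neg hA]
    obtain ⟨s, hs⟩ := Finset.nonempty_iff_ne_empty.2 hA
    rw [Set.indicator_of_notMem]
    · simp
    · intro h
      have := h s hs
      simp at this

theorem allOnes_ext {d n : ℕ} (v : Fin n → (Fin d → ℤ)) (θ : unitInterval) (t : ℕ)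
    (A : Finset (Fin d → ℤ)) : allOnes ((perc v θ)^[t] (zeroes d)) A =
      ext (1 - (θ : ℝ)) (Finset.univ.image v) t A := by
  rw [allOnes_iter]
  unfold ext
  apply Qit_congr
  intro B
  exact allOnes_zeroes d B

theorem allOnes_chaos {d : ℕ} (μ : ProbabilityMeasure (Config d)) (A : Finset (Fin d → ℤ)) :
    allOnes (chaos μ) A = ∏ s ∈ A, allOnes μ {s} := by
  unfold allOnes chaos
  have h1 : {x : Config d | ∀ s ∈ A, x s = true} =
      (A : Set (Fin d → ℤ)).pi (fun _ => ({true} : Set Bool)) := by
    ext x; simp [Set.mem_pi]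
  rw [measureReal_def, h1]
  show (Measure.infinitePi _ _).toReal = _
  rw [Measure.infinitePi_pi _ (fun i _ => MeasurableSet.of_discrete), ENNReal.toReal_prod]
  apply Finset.prod_congr rfl
  intro s _
  rw [ProbabilityMeasure.toMeasure_map,
    Measure.map_apply (measurable_pi_apply s) MeasurableSet.of_discrete, measureReal_def]
  congr 2
  ext x
  simp

theorem chaos_iter {d n : ℕ} (v : Fin n → (Fin d → ℤ)) (θ : unitInterval) (T k : ℕ)
    (A : Finset (Fin d → ℤ)) :
    allOnes ((fun μ => chaos ((perc v θ)^[T] μ))^[k] (zeroes d)) A =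
      ((Fd (1 - (θ : ℝ)) (Finset.univ.image v) T)^[k] 0) ^ A.card := by
  induction k generalizing A with
  | zero =>
    show allOnes (zeroes d) A = (0 : ℝ) ^ A.card
    rw [allOnes_zeroes]
    by_cases hA : A = ∅
    · subst hA; simp
    · rw [if_neg hA, zero_pow]
      exact Finset.card_ne_zero.2 (Finset.nonempty_iff_ne_empty.2 hA)
  | succ k ih =>
    rw [Function.iterate_succ_apply', Function.iterate_succ_apply', allOnes_chaos]
    set p := (Fd (1 - (θ : ℝ)) (Finset.univ.image v) T)^[k] 0 with hp
    have h1 : ∀ s ∈ A, allOnes ((perc v θ)^[T]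
        ((fun μ => chaos ((perc v θ)^[T] μ))^[k] (zeroes d))) {s} =
        Fd (1 - (θ : ℝ)) (Finset.univ.image v) T p := by
      intro s _
      rw [allOnes_iter]
      have h2 : allOnes ((fun μ => chaos ((perc v θ)^[T] μ))^[k] (zeroes d)) =
          fun A => p ^ A.card := by
        funext B; exact ih B
      rw [h2]
      have h3 := Qit_translate (1 - (θ : ℝ)) (Finset.univ.image v) T
        (f := fun A : Finset (Fin d → ℤ) => p ^ A.card)
        (fun x A => by simp only [Finset.card_image_of_injective A (add_right_injective x)]) s {0}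
      rw [Finset.image_singleton, add_zero] at h3
      exact h3
    rw [Finset.prod_congr rfl h1, Finset.prod_const]

theorem chaosDensity_eq {d n : ℕ} (v : Fin n → (Fin d → ℤ)) (θ : unitInterval) (T k : ℕ) :
    chaosDensity v θ T k = (Fd (1 - (θ : ℝ)) (Finset.univ.image v) T)^[k] 0 := by
  have h := chaos_iter v θ T k {0}
  rw [Finset.card_singleton, pow_one] at h
  rw [← h]
  unfold chaosDensity allOnes
  congr 1
  ext x
  simp

theorem tendsto_ones_iff {d n : ℕ} (v : Fin n → (Fin d → ℤ)) (θ : unitInterval) :
    Tendsto (fun t : ℕ => (perc v θ)^[t] (zeroes d)) atTop (𝓝 (ones d)) ↔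
      Tendsto (fun t : ℕ => ext (1 - (θ : ℝ)) (Finset.univ.image v) t {0}) atTop (𝓝 1) := by
  constructor
  · intro h
    have hclopen : IsClopen {x : Config d | x 0 = true} :=
      (isClopen_discrete ({true} : Set Bool)).preimage (continuous_apply (0 : Fin d → ℤ))
    have h1 := ProbabilityMeasure.tendsto_measure_of_isClopen_of_tendsto h hclopen
    have h2 : (ones d) {x : Config d | x 0 = true} = 1 := by
      rw [← ENNReal.coe_inj, ProbabilityMeasure.ennreal_coeFn_eq_coeFn_toMeasure]
      unfold ones
      rw [diracProba_toMeasure_apply_of_mem]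
      · rfl
      · simp
    rw [h2] at h1
    have h3 : Tendsto (fun t : ℕ => (((perc v θ)^[t] (zeroes d) {x : Config d | x 0 = true} :
        NNReal) : ℝ)) atTop (𝓝 ((1 : NNReal) : ℝ)) := (NNReal.tendsto_coe).2 h1
    rw [NNReal.coe_one] at h3
    refine h3.congr (fun t => ?_)
    rw [← allOnes_ext]
    unfold allOnes
    rw [ProbabilityMeasure.measureReal_eq_coe_coeFn]
    congr 2
    ext x
    simp
  · intro h
    apply tendsto_of_forall_isOpen_le_liminf
    intro U hU
    by_cases h1 : (fun _ => true : Config d) ∈ U
    · obtain ⟨I, u, hu, hIU⟩ := (isOpen_pi_iff.1 hU) _ h1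
      -- the configurations equal to one on `I` are in `U`
      have hsub : {x : Config d | ∀ s ∈ I, x s = true} ⊆ U := by
        intro x hx
        apply hIU
        intro s hs
        rw [hx s hs]
        exact (hu s hs).2
      have hI : Tendsto (fun t : ℕ => allOnes ((perc v θ)^[t] (zeroes d)) I) atTop (𝓝 1) := by
        have hpow : Tendsto (fun t : ℕ =>
            (ext (1 - (θ : ℝ)) (Finset.univ.image v) t {0}) ^ I.card) atTop (𝓝 1) := by
          have := h.pow I.card
          simpa using this
        have hq0 : 0 ≤ 1 - (θ : ℝ) := by linarith [θ.2.2]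
        have hq1 : 1 - (θ : ℝ) ≤ 1 := by linarith [θ.2.1]
        refine tendsto_of_tendsto_of_tendsto_of_le_of_le hpow tendsto_const_nhds ?_ ?_
        · intro t
          show _ ≤ allOnes ((perc v θ)^[t] (zeroes d)) I
          rw [allOnes_ext]
          exact ext_ge_pow hq0 hq1 _ t I
        · intro t
          show allOnes ((perc v θ)^[t] (zeroes d)) I ≤ 1
          rw [allOnes_ext]
          exact ext_le_one hq0 hq1 _ t I
      have hI' : Tendsto (fun t : ℕ => (perc v θ)^[t] (zeroes d)
          {x : Config d | ∀ s ∈ I, x s = true}) atTop (𝓝 1) := by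
        rw [← NNReal.tendsto_coe, NNReal.coe_one]
        refine hI.congr (fun t => ?_)
        unfold allOnes
        rw [ProbabilityMeasure.measureReal_eq_coe_coeFn]
      have h2 : (ones d) U ≤ 1 := ProbabilityMeasure.apply_le_one _ _
      refine h2.trans ?_
      rw [← hI'.liminf_eq]
      apply Filter.liminf_le_liminf
      · exact Eventually.of_forall (fun t => ProbabilityMeasure.apply_mono _ hsub)
      · exact ⟨0, by simp⟩
      · exact IsBoundedUnder.isCoboundedUnder_ge ⟨1, by simp⟩
    · have h2 : (ones d) U = 0 := by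
        rw [← ENNReal.coe_inj, ProbabilityMeasure.ennreal_coeFn_eq_coeFn_toMeasure]
        unfold ones
        rw [diracProba_toMeasure_apply' _ hU.measurableSet, Set.indicator_of_notMem h1]
        rfl
      rw [h2]
      exact zero_le

/-- Chaos approximation of the critical point: for every percolation operator, the critical points
of `chaos ∘ P(θ)^T` converge to the critical value of `P`. -/
theorem ChaosCriticalLimit.result (d n : ℕ) (hd : 1 ≤ d) (hn : 1 ≤ n)
    (v : Fin n → (Fin d → ℤ)) (hv : Function.Injective v) :
    Tendsto (fun T : ℕ => chaosCritical v T) atTop (𝓝 (critical v)) := by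
  classical
  set V := Finset.univ.image v with hV
  have hVne : V.Nonempty := ⟨v ⟨0, hn⟩, Finset.mem_image_of_mem v (Finset.mem_univ _)⟩
  have hbdd : BddBelow {θ : ℝ | ∃ h : θ ∈ Set.Icc (0 : ℝ) 1,
    Tendsto (fun t : ℕ => (perc v ⟨θ, h⟩)^[t] (zeroes d)) atTop (𝓝 (ones d))} :=
    ⟨0, fun θ hθ => hθ.1.1⟩
  have hbddT : ∀ T, BddBelow {θ : ℝ | ∃ h : θ ∈ Set.Icc (0 : ℝ) 1,
    Tendsto (fun k : ℕ => chaosDensity v ⟨θ, h⟩ T k) atTop (𝓝 1)} :=
    fun T => ⟨0, fun θ hθ => hθ.1.1⟩
  -- membership criteria
  have hmemT : ∀ T (θ : ℝ) (h : θ ∈ Set.Icc (0 : ℝ) 1), cnt (1 - θ) V T {0} < 1 →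
      θ ∈ {θ : ℝ | ∃ h : θ ∈ Set.Icc (0 : ℝ) 1,
        Tendsto (fun k : ℕ => chaosDensity v ⟨θ, h⟩ T k) atTop (𝓝 1)} := by
    intro T θ h hc
    refine ⟨h, ?_⟩
    have := Fd_tendsto_of_cnt (q := 1 - θ) (by linarith [h.2]) (by linarith [h.1]) V T hc
    refine this.congr (fun k => ?_)
    rw [chaosDensity_eq]
  have hone : ∀ T, 1 ≤ T → cnt (1 - (1 : ℝ)) V T {0} < 1 := by
    intro T hT
    obtain ⟨T, rfl⟩ : ∃ T', T = T' + 1 := ⟨T - 1, by omega⟩
    have h0 : ∀ k, cnt (1 - (1 : ℝ)) V k (∅ : Finset (Fin d → ℤ)) = 0 := by
      intro k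
      induction k with
      | zero => simp [cnt]
      | succ k ih => rw [cnt_succ]; unfold Q; rw [wsum_empty, Finset.empty_add, ih]
    have h1 : cnt (1 - (1 : ℝ)) V (T + 1) {0} = 0 := by
      rw [cnt_succ]
      unfold Q
      have h2 := wsum_insert (1 - (1 : ℝ)) (Finset.notMem_empty (0 : Fin d → ℤ))
        (fun R => cnt (1 - (1 : ℝ)) V T (R + V))
      rw [insert_empty_eq] at h2
      rw [h2, wsum_empty, Finset.empty_add, h0]
      ring
    rw [h1]; norm_num
  -- lower bound
  have hlow : ∀ T, 1 ≤ T → critical v ≤ chaosCritical v T := by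
    intro T hT
    apply le_csInf
    · exact ⟨1, hmemT T 1 (by simp) (hone T hT)⟩
    · rintro θ ⟨h, hθ⟩
      apply csInf_le hbdd
      refine ⟨h, ?_⟩
      rw [tendsto_ones_iff]
      apply ext_tendsto_of_Fd (q := 1 - θ) (by linarith [h.2]) (by linarith [h.1]) V T
      refine hθ.congr (fun k => ?_)
      rw [chaosDensity_eq]
  have hup1 : ∀ T, 1 ≤ T → chaosCritical v T ≤ 1 := by
    intro T hT
    exact csInf_le (hbddT T) (hmemT T 1 (by simp) (hone T hT))
  -- upper bound
  have hup : ∀ ε > 0, ∀ᶠ T in atTop, chaosCritical v T ≤ critical v + ε := by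
    intro ε hε
    by_cases hbig : 1 ≤ critical v + ε
    · filter_upwards [eventually_ge_atTop 1] with T hT
      exact (hup1 T hT).trans hbig
    · push Not at hbig
      have hne : {θ : ℝ | ∃ h : θ ∈ Set.Icc (0 : ℝ) 1,
          Tendsto (fun t : ℕ => (perc v ⟨θ, h⟩)^[t] (zeroes d)) atTop (𝓝 (ones d))}.Nonempty := by
        refine ⟨1, by simp, ?_⟩
        rw [tendsto_ones_iff]
        apply ext_tendsto_of_Fd (q := 1 - 1) (by norm_num) (by norm_num) V 1
        exact Fd_tendsto_of_cnt (by norm_num) (by norm_num) V 1 (hone 1 le_rfl)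
      obtain ⟨θ₁, ⟨h₁, hθ₁⟩, hlt⟩ := exists_lt_of_csInf_lt hne
        (show critical v < critical v + ε by linarith)
      rw [tendsto_ones_iff] at hθ₁
      have hcrit : critical v ≤ θ₁ := csInf_le hbdd ⟨h₁, by rw [tendsto_ones_iff]; exact hθ₁⟩
      -- `θ₁ > 0`
      have hpos : 0 < θ₁ := by
        rcases lt_or_eq_of_le h₁.1 with h | h
        · exact h
        · exfalso
          have hz : ∀ t, ∀ A : Finset (Fin d → ℤ), A.Nonempty → ext (1 : ℝ) V t A = 0 := by
            intro t
            induction t with
            | zero =>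
              intro A hA
              show (if A = ∅ then (1 : ℝ) else 0) = 0
              rw [if_neg (Finset.nonempty_iff_ne_empty.1 hA)]
            | succ t ih =>
              intro A hA
              have hrw : ext (1 : ℝ) V (t + 1) = Q 1 V (ext 1 V t) := by
                unfold ext; rw [Function.iterate_succ_apply']
              rw [hrw]
              unfold Q wsum
              apply Finset.sum_eq_zero
              intro R hR
              rw [Finset.mem_powerset] at hR
              by_cases hRA : R = A
              · subst hRA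
                show wt 1 R.card R.card * ext 1 V t (R + V) = 0
                rw [ih (R + V) (hA.add hVne), mul_zero]
              · have hlt : R.card < A.card := Finset.card_lt_card
                  (Finset.ssubset_iff_subset_ne.2 ⟨hR, hRA⟩)
                unfold wt
                rw [sub_self, zero_pow (by omega), mul_zero, zero_mul]
          have h2 : ∀ t, ext (1 - θ₁) V t ({0} : Finset (Fin d → ℤ)) = 0 := by
            intro t
            rw [← h, sub_zero]
            exact hz t {0} (Finset.singleton_nonempty 0)
          have h3 : Tendsto (fun t : ℕ => ext (1 - θ₁) V t ({0} : Finset (Fin d → ℤ)))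
              atTop (𝓝 1) := hθ₁
          simp only [h2] at h3
          exact absurd (tendsto_nhds_unique h3 tendsto_const_nhds) (by norm_num)
      obtain ⟨q, hq, hcnt⟩ := sharp (q₀ := 1 - (critical v + ε)) (q₁ := 1 - θ₁)
        (by linarith) (by linarith) (by linarith) V hVne hθ₁
      have hq1 : (1 - q) ∈ Set.Icc (0 : ℝ) 1 := by
        constructor
        · linarith [hq.2]
        · linarith [hq.1]
      have hev : ∀ᶠ T in atTop, cnt q V T ({0} : Finset (Fin d → ℤ)) < 1 :=
        hcnt.eventually (gt_mem_nhds (by norm_num))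
      filter_upwards [hev] with T hT
      have h4 := csInf_le (hbddT T) (hmemT T (1 - q) hq1 (by rw [sub_sub_cancel]; exact hT))
      refine le_trans h4 ?_
      linarith [hq.1]
  rw [Metric.tendsto_atTop]
  intro ε hε
  obtain ⟨N, hN⟩ := eventually_atTop.1 (hup (ε / 2) (by linarith))
  refine ⟨max N 1, fun T hT => ?_⟩
  have h1 := hN T ((le_max_left _ _).trans hT)
  have h2 := hlow T ((le_max_right _ _).trans hT)
  rw [Real.dist_eq, abs_lt]
  constructor <;> linarith

end Pool.Agent.Results.MP_2e2eba_pr
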